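import Pool.Agent.TH121.RW.Defs

/-!
# The Hyodo-Kato cohomology of varieties with semistable reduction: definitions

`HyodoKatoTheory` lists the data and the known facts which are used. No Lefschetz theorem is among
them. The notions `IsWeilNumber`, `IsMonodromyFiltration`, `IsMwPure`, `IsExtensionMap`,
`IsKunnethMap`, `NoInvariants` and `NoCohomology` are those of `Pool.Agent.TH122.WmB` and
`Pool.Agent.TH122.WmC`, and `IsPairing` and `IsTwistEmbedding` those of `Pool.Agent.TH121.RW.Defs`.
-/

open Module TensorProduct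

universe u v

namespace Pool.Agent.TH121.RW

open Pool.Agent.TH122.Wm

/-- The Hyodo-Kato cohomology of the smooth projective varieties `Y` over finite extensions `K'` of `ℚ_p`
with a projective semistable model over the ring of integers of `K'`; the case of all smooth projective
varieties reduces to this one by alterations (de Jong). The coefficients are extended from the maximal
unramified subfield of `K'` to an algebraic closure `E` of `ℚ_p`, and `F` is the linear operator
`φ ^ f`. -/
structure HyodoKatoTheory (E : Type u) [Field E] [CharZero E] where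
  /-- the pairs of a finite extension `K'` of `ℚ_p` and `Y` with its semistable model -/
  Obj : Type v
  /-- the dimension of `Y` -/
  dim : Obj → ℕ
  p : ℕ
  one_lt : 1 < p
  /-- the residue field of `K'` has `p ^ f` elements, `f = deg X` -/
  deg : Obj → ℕ
  deg_pos : ∀ X, 0 < deg X
  /-- the Hyodo-Kato cohomology `H ^ i`, over `E` -/
  H : Obj → ℕ → ModuleCat.{v} E
  finite : ∀ X i, Module.Finite E (H X i)
  /-- the linear operator `φ ^ f` -/
  F : ∀ X i, Module.End E (H X i)
  /-- the monodromy operator -/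
  N : ∀ X i, Module.End E (H X i)
  N_F : ∀ X i x, N X i (F X i x) = ((p : E) ^ deg X) • F X i (N X i x)
  /-- the eigenvalues of Frobenius are Weil numbers (of some weights) -/
  weights : ∀ X i α, (F X i).HasEigenvalue α → ∃ w : ℤ, IsWeilNumber (p ^ deg X) w α
  vanishing : ∀ X i, 2 * dim X < i → ∀ x : H X i, x = 0
  /-- Poincare duality -/
  duality : ∀ X i j, i + j = 2 * dim X → ∃ b, IsPairing (((p : E) ^ deg X) ^ dim X) (F X i) (N X i)
    (F X j) (N X j) b
  /-- extension of the base field -/
  extension : ∀ X m, 0 < m → ∃ Z e, 0 < e ∧ deg Z = m * deg X ∧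
    ∀ i, ∃ ψ, IsExtensionMap (F X i) (N X i) (F Z i) (N Z i) m e ψ
  /-- products (over a common extension of the base fields) and the Kunneth formula -/
  product : ∀ X Y, ∃ Z m e m' e', 0 < m ∧ 0 < e ∧ 0 < m' ∧ 0 < e' ∧ deg Z = m * deg X ∧
    deg Z = m' * deg Y ∧ ∀ i j, ∃ φ, IsKunnethMap (F X i) (N X i) (F Y j) (N Y j) (F Z (i + j))
      (N Z (i + j)) m e m' e' φ
  /-- the product of `X` with itself -/
  square : Obj → Obj
  deg_square : ∀ X, deg (square X) = deg X
  kunneth : ∀ X i, ∃ φ, IsKunnethMap (F X i) (N X i) (F X i) (N X i) (F (square X) (i + i))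
    (N (square X) (i + i)) 1 1 1 1 φ
  /-- the product `Z` of `X` with `m` projective lines; the map is the exterior product with a class of
  degree `2 r`, the exterior product of `r` classes of points -/
  projectiveLines : ∀ X m r, r ≤ m → ∃ Z, dim Z = dim X + m ∧ deg Z = deg X ∧
    ∀ i, ∃ L, IsTwistEmbedding (((p : E) ^ deg X) ^ r) (F X i) (N X i) (F Z (i + 2 * r))
      (N Z (i + 2 * r)) L
  /-- an elliptic curve with split multiplicative reduction -/
  tate : ∃ (T : Obj) (u : H T 1), F T 1 u = ((p : E) ^ deg T) • u ∧ N T 1 u ≠ 0 ∧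
    N T 1 (N T 1 u) = 0
  /-- Honda-Tate theory: up to a root of unity, the complex conjugates of the Weil numbers are
  eigenvalues of Frobenius on the cohomology of abelian varieties with good reduction -/
  honda : ∀ X i (w : ℕ) α, (F X i).HasEigenvalue α → IsWeilNumber (p ^ deg X) w α →
    ∃ (B : Obj) (β : E) (y : H B w) (m : ℕ), 0 < m ∧ y ≠ 0 ∧ N B w y = 0 ∧ F B w y = β • y ∧
      (α ^ deg B * β ^ deg X) ^ m = (p : E) ^ (w * (deg X * deg B) * m)
  /-- the rigid cohomology of the special fibre of the semistable model, over `E` -/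
  Hs : Obj → ℕ → ModuleCat.{v} E
  finiteHs : ∀ X i, Module.Finite E (Hs X i)
  /-- Frobenius on the rigid cohomology of the special fibre -/
  Fs : ∀ X i, Module.End E (Hs X i)
  /-- the weights of the rigid cohomology of degree `i` of a projective scheme are at most `i` -/
  weightsHs : ∀ X i α, (Fs X i).HasEigenvalue α → ∃ w : ℤ, w ≤ i ∧ IsWeilNumber (p ^ deg X) w α
  /-- the specialization map -/
  spec : ∀ X i, Hs X i →ₗ[E] H X i
  spec_F : ∀ X i y, spec X i (Fs X i y) = F X i (spec X i y)

attribute [instance] HyodoKatoTheory.finite HyodoKatoTheory.finiteHs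

variable {E : Type u} [Field E] [CharZero E]

namespace HyodoKatoTheory

variable (𝒯 : HyodoKatoTheory.{u, v} E)

/-- The number of elements of the residue field. -/
def q (X : 𝒯.Obj) : ℕ := 𝒯.p ^ 𝒯.deg X

/-- The statement of the problem (Q1) for `X`, in all degrees. -/
def QOneFor (X : 𝒯.Obj) : Prop := ∀ i, IsMwPure (𝒯.q X) i (𝒯.F X i) (𝒯.N X i)

/-- **The statement of the problem** (Q1), for all the varieties and all degrees. -/
def MonodromyWeight : Prop := ∀ X, 𝒯.QOneFor X

/-- The weights of the kernel of `N` in `H ^ i` are at most `i`. -/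
def WeightsAtMost : Prop := ∀ X i (α : E) (w : ℤ) (x : 𝒯.H X i), x ≠ 0 → 𝒯.N X i x = 0 →
  𝒯.F X i x = α • x → IsWeilNumber (𝒯.q X) w α → w ≤ i

/-- The weights of the kernel of `N` in `H ^ (2 i)` of the product of `Y` with itself are at
most `2 i`. -/
def SquareWeightsAtMost (X : 𝒯.Obj) : Prop := ∀ i (α : E) (w : ℤ) (x : 𝒯.H (𝒯.square X) (i + i)),
  x ≠ 0 → 𝒯.N (𝒯.square X) (i + i) x = 0 → 𝒯.F (𝒯.square X) (i + i) x = α • x →
    IsWeilNumber (𝒯.q X) w α → w ≤ 2 * i

/-- The number `i + 1` is not a weight of the kernel of `N` in `H ^ i`. -/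
def NextWeightMissing : Prop := ∀ X i (α : E) (x : 𝒯.H X i), x ≠ 0 → 𝒯.N X i x = 0 →
  𝒯.F X i x = α • x → ¬ IsWeilNumber (𝒯.q X) (i + 1) α

/-- If the dimension of `Y` is `2 j - 1`, then there are no nonzero maps from the unit `(φ, N)`-module to
`H ^ (2 j - 1) (Y) (j)`: the only `x` with `φ x = p ^ j x` and `N x = 0` is zero (the elements with
`φ ^ f x = q ^ j x` are the multiples of such elements, by descent). -/
def NoGaloisInvariants : Prop := ∀ X j, 𝒯.dim X + 1 = 2 * j →
  NoInvariants ((𝒯.q X : E) ^ j) (𝒯.F X (2 * j - 1)) (𝒯.N X (2 * j - 1))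

/-- If the dimension of `Y` is `2 j - 1`, then all extensions of the unit `(φ, N)`-module by
`H ^ (2 j - 1) (Y) (j)` split (in terms of `φ ^ f`, over `E`). -/
def NoGaloisCohomology : Prop := ∀ X j, 𝒯.dim X + 1 = 2 * j →
  NoCohomology (𝒯.q X : E) ((𝒯.q X : E) ^ j) (𝒯.F X (2 * j - 1)) (𝒯.N X (2 * j - 1))

/-- The `p`-adic local invariant cycle theorem for `Y` and the degree `i`: the specialization map from
the rigid cohomology of the special fibre is surjective onto the kernel of `N`. -/
def LocalInvariantCycles (X : 𝒯.Obj) (i : ℕ) : Prop :=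
  ∀ x : 𝒯.H X i, 𝒯.N X i x = 0 → ∃ y, 𝒯.spec X i y = x

end HyodoKatoTheory

end Pool.Agent.TH121.RW
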