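import Pool.Agent.TH121.RW.Defs
import Pool.Agent.TH122.WmE

/-!
# The weights of the invariants of inertia (rigid-analytic varieties)

The proofs follow `Pool.Agent.TH122.WmC`, `WmD` and `WmE`; the Lefschetz theorems are replaced by
products with projective lines, and the self-duality of `H ^ i` by Poincare duality.
-/

open Module TensorProduct

universe u v

namespace Pool.Agent.TH121.RW

open Pool.Agent.TH122.Wm Pool.Agent.TH122.Wm.Theory

section pairing

variable {E : Type u} [Field E] {V : Type v} [AddCommGroup V] [Module E V] {V' : Type v}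
  [AddCommGroup V'] [Module E V']

/-- Orthogonality of generalized eigenspaces. -/
lemma ortho₂ {F : Module.End E V} {F' : Module.End E V'} {b : V →ₗ[E] V' →ₗ[E] E} {c : E}
    (hb : ∀ x y, b (F x) (F' y) = c * b x y) {S T : Set E} (hST : ∀ r ∈ S, ∀ r' ∈ T, r * r' ≠ c)
    {x : V} {y : V'} (hx : x ∈ sp F S) (hy : y ∈ sp F' T) : b x y = 0 := by
  obtain ⟨s, hs, hx⟩ := hx
  obtain ⟨t, ht, hy⟩ := hy
  induction s using Multiset.induction_on generalizing x y t with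
  | empty => rw [pr_zero, Module.End.one_apply] at hx; rw [hx, map_zero, LinearMap.zero_apply]
  | cons r s ihs =>
    induction t using Multiset.induction_on generalizing x y with
    | empty => rw [pr_zero, Module.End.one_apply] at hy; rw [hy, map_zero]
    | cons r' t iht =>
      have hr := hs r (Multiset.mem_cons_self r s)
      have hr' := ht r' (Multiset.mem_cons_self r' t)
      set x' := (F - algebraMap E _ r) x with hx'
      set y' := (F' - algebraMap E _ r') y with hy'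
      have hFx : F x = r • x + x' := by
        rw [hx', LinearMap.sub_apply, Module.algebraMap_end_apply]; abel
      have hFy : F' y = r' • y + y' := by
        rw [hy', LinearMap.sub_apply, Module.algebraMap_end_apply]; abel
      have h1 : pr F s x' = 0 := by
        rw [hx', ← Module.End.mul_apply]
        have h2 : pr F s * (F - algebraMap E _ r) = (F - algebraMap E _ r) * pr F s := by
          rw [mul_sub, sub_mul, pr_comm_F, Algebra.commutes]
        rw [h2, ← pr_cons, hx]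
      have h2 : pr F' t y' = 0 := by
        rw [hy', ← Module.End.mul_apply]
        have h2 : pr F' t * (F' - algebraMap E _ r') = (F' - algebraMap E _ r') * pr F' t := by
          rw [mul_sub, sub_mul, pr_comm_F, Algebra.commutes]
        rw [h2, ← pr_cons, hy]
      have hss : ∀ a ∈ s, a ∈ S := fun a ha => hs a (Multiset.mem_cons_of_mem ha)
      have htt : ∀ a ∈ t, a ∈ T := fun a ha => ht a (Multiset.mem_cons_of_mem ha)
      have e1 : b x' y = 0 := ihs hss h1 (r' ::ₘ t) ht hy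
      have e2 : b x' y' = 0 := ihs hss h1 t htt h2
      have e3 : b x y' = 0 := iht hx htt h2
      have h3 := hb x y
      simp only [hFx, hFy, map_add, LinearMap.add_apply, map_smul, LinearMap.smul_apply, e1, e2,
        e3, smul_zero, add_zero, smul_eq_mul] at h3
      have h4 : (r * r' - c) * b x y = 0 := by linear_combination h3
      exact (mul_eq_zero.1 h4).resolve_left (sub_ne_zero.2 (hST r hr r' hr'))

/-- Dual weights have the same multiplicity. -/
lemma finrank_le [CharZero E] [IsAlgClosed E] [Module.Finite E V] [Module.Finite E V'] (hE : Nonempty (E →+* ℂ))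
    {q : ℕ} (hq : 1 < q) {F N : Module.End E V} {F' N' : Module.End E V'}
    {b : V →ₗ[E] V' →ₗ[E] E} {d : ℕ} (hb : IsPairing ((q : E) ^ d) F N F' N' b)
    (hw : ∀ α, F'.HasEigenvalue α → ∃ w : ℤ, IsWeilNumber q w α) (c c' : ℤ)
    (hc : c + c' = 2 * d) :
    Module.finrank E (sp F (Sw E q c)) ≤ Module.finrank E (sp F' (Sw E q c')) := by
  have horth : ∀ x ∈ sp F (Sw E q c), (∀ y ∈ sp F' (Sw E q c'), b x y = 0) → x = 0 := by
    intro x hx hxy
    apply hb.left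
    intro y
    have h1 : y ∈ sp F' (Sw E q c' ∪ {α | ∃ w, w ≠ c' ∧ IsWeilNumber q w α}) := by
      refine sp_mono ?_ (sp_eigenvalues F' y)
      intro α hα
      obtain ⟨w, hw⟩ := hw α hα
      by_cases hwc : w = c'
      · left; rw [← hwc]; exact hw
      · right; exact ⟨w, hwc, hw⟩
    obtain ⟨y₁, hy₁, y₂, hy₂, rfl⟩ := sp_union h1
    rw [map_add, hxy y₁ hy₁, zero_add]
    refine ortho₂ hb.F ?_ hx hy₂
    rintro α hα β ⟨w, hw, hβ⟩ hαβ
    have h2 := IsWeilNumber.mul hq hα hβ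
    rw [hαβ] at h2
    have h3 := h2.unique hE hq (isWeilNumber_q q d)
    apply hw
    linarith
  set θ : sp F (Sw E q c) →ₗ[E] Module.Dual E (sp F' (Sw E q c')) :=
    { toFun := fun x => b x ∘ₗ Submodule.subtype _
      map_add' := by intro x y; ext z; simp
      map_smul' := by intro c x; ext z; simp } with hθ
  have hinj : Function.Injective θ := by
    rw [← LinearMap.ker_eq_bot, LinearMap.ker_eq_bot']
    rintro ⟨x, hx⟩ h0
    apply Subtype.ext
    apply horth x hx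
    intro y hy
    exact congrArg (fun f => f ⟨y, hy⟩) h0
  have h1 := LinearMap.finrank_le_finrank_of_injective hinj
  rwa [Subspace.dual_finrank_eq] at h1

/-- Compatible maps. -/
lemma map_mem_sp {F : Module.End E V} {F' : Module.End E V'} {f : V →ₗ[E] V'}
    (hf : ∀ x, f (F x) = F' (f x)) {S : Set E} {x : V} (hx : x ∈ sp F S) : f x ∈ sp F' S := by
  obtain ⟨s, hs, hx⟩ := hx
  refine ⟨s, hs, ?_⟩
  have key : ∀ s : Multiset E, ∀ x, f (pr F s x) = pr F' s (f x) := by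
    intro s
    induction s using Multiset.induction_on with
    | empty => intro x; simp [pr_zero]
    | cons r s ih =>
      intro x
      rw [pr_cons, pr_cons, Module.End.mul_apply, Module.End.mul_apply, LinearMap.sub_apply,
        LinearMap.sub_apply, map_sub, hf, Module.algebraMap_end_apply,
        Module.algebraMap_end_apply, map_smul, ih]
  rw [← key, hx, map_zero]

end pairing

namespace RigidTheory

variable {E : Type u} [Field E] [CharZero E] {𝒯 : RigidTheory.{u, v} E}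

lemma one_lt_q (X : 𝒯.Obj) : 1 < 𝒯.q X := Nat.one_lt_pow (𝒯.deg_pos X).ne' 𝒯.one_lt

lemma q_cast (X : 𝒯.Obj) : (𝒯.q X : E) = (𝒯.p : E) ^ 𝒯.deg X := by
  rw [q, Nat.cast_pow]

lemma q_ne (X : 𝒯.Obj) : (𝒯.q X : E) ≠ 0 := by
  exact_mod_cast (by have := one_lt_q X; omega : 𝒯.q X ≠ 0)

lemma NF (X : 𝒯.Obj) (i : ℕ) (x : 𝒯.H X i) :
    𝒯.N X i (𝒯.F X i x) = (𝒯.q X : E) • 𝒯.F X i (𝒯.N X i x) := by
  rw [q_cast]; exact 𝒯.N_F X i x

lemma q_mul {X Z : 𝒯.Obj} {m : ℕ} (h : 𝒯.deg Z = m * 𝒯.deg X) : 𝒯.q Z = 𝒯.q X ^ m := by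
  rw [q, q, h, ← pow_mul, mul_comm]

/-- (1) implies (2). -/
theorem weights_of_mw (hE : Nonempty (E →+* ℂ)) (h : 𝒯.MonodromyWeight) : 𝒯.WeightsAtMost := by
  intro X i α w x hx0 hN hF hα
  obtain ⟨M, hM, hMF, hpure⟩ := h X i
  have hq := one_lt_q X
  obtain ⟨c, hc⟩ := hM.top
  obtain ⟨d, hd⟩ := hM.bot
  have hbdd : ∀ a : ℤ, x ∈ M a → d ≤ a := by
    intro a ha
    by_contra hlt
    have h1 : x ∈ M d := hM.mono (by omega) ha
    rw [hd, Submodule.mem_bot] at h1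
    exact hx0 h1
  obtain ⟨a, ha, hmin⟩ := Int.exists_least_of_bdd (P := fun a => x ∈ M a) ⟨d, hbdd⟩
    ⟨c, by rw [hc]; trivial⟩
  have hna : x ∉ M (a - 1) := fun h1 => by
    have := hmin _ h1
    omega
  have h1 : IsWeilNumber (𝒯.q X) (i + a) α := hpure a α x ha hna (by
    rw [hF, sub_self]; exact Submodule.zero_mem _)
  have h2 := hα.unique hE hq h1
  by_contra hlt
  obtain ⟨b, rfl⟩ := Int.eq_ofNat_of_zero_le (show 0 ≤ a by omega)
  apply hna
  apply hM.inj b x ha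
  obtain ⟨b', rfl⟩ : ∃ b', b = b' + 1 := ⟨b - 1, by omega⟩
  rw [pow_succ, Module.End.mul_apply, hN, map_zero]
  exact Submodule.zero_mem _

/-- (2) implies (3). -/
theorem next_of_weights (h : 𝒯.WeightsAtMost) : 𝒯.NextWeightMissing := by
  intro X i α x hx hN hF hα
  have := h X i α (i + 1) x hx hN hF hα
  omega

/-- (3) implies (4). -/
theorem invariants_of_next (h : 𝒯.NextWeightMissing) : 𝒯.NoGaloisInvariants := by
  intro X j hj x hF hN
  by_contra hx
  refine h X (2 * j - 1) _ x hx hN hF ?_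
  have h1 := isWeilNumber_q (E := E) (𝒯.q X) j
  have h2 : (((2 * j - 1 : ℕ) : ℤ) + 1) = 2 * j := by omega
  rw [h2]
  exact h1

/-- (4) is equivalent to (5). -/
theorem invariants_iff : 𝒯.NoGaloisInvariants ↔ 𝒯.NoGaloisCohomology := by
  have key : ∀ X j, 𝒯.dim X + 1 = 2 * j →
      (NoInvariants ((𝒯.q X : E) ^ j) (𝒯.F X (2 * j - 1)) (𝒯.N X (2 * j - 1)) ↔
        NoCohomology (𝒯.q X : E) ((𝒯.q X : E) ^ j) (𝒯.F X (2 * j - 1))
          (𝒯.N X (2 * j - 1))) := by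
    intro X j hj
    obtain ⟨b, hb⟩ := 𝒯.duality X (2 * j - 1) (2 * j - 1) (by omega)
    refine noInvariants_iff (q_ne X) (pow_ne_zero _ (q_ne X)) (NF X _) hb.left hb.right ?_ hb.N
    intro x y
    rw [hb.F, ← q_cast, ← mul_assoc, ← pow_succ', ← pow_mul, mul_comm j 2, hj]
  exact ⟨fun h X j hj => (key X j hj).1 (h X j hj), fun h X j hj => (key X j hj).2 (h X j hj)⟩

/-- (4) for all degrees and all dimensions. -/
lemma noInvariants_all (h : 𝒯.NoGaloisInvariants) (X : 𝒯.Obj) (j i : ℕ) (hi : i + 1 = 2 * j) :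
    NoInvariants ((𝒯.q X : E) ^ j) (𝒯.F X i) (𝒯.N X i) := by
  have key : ∀ m r, r ≤ m → i + 2 * r = 𝒯.dim X + m →
      NoInvariants ((𝒯.q X : E) ^ j) (𝒯.F X i) (𝒯.N X i) := by
    intro m r hr him x hF hN
    obtain ⟨Z, hdim, hdeg, hL⟩ := 𝒯.projectiveLines X m r hr
    obtain ⟨L, hL⟩ := hL i
    have hq : 𝒯.q Z = 𝒯.q X := by rw [q, q, hdeg]
    have h1 : L x = 0 := by
      have h2 := h Z (j + r) (by omega)
      have h3 : 2 * (j + r) - 1 = i + 2 * r := by omega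
      rw [h3] at h2
      apply h2
      · rw [hL.F, hF, map_smul, smul_smul, hq, ← q_cast, ← pow_add, add_comm r j]
      · rw [hL.N, hN, map_zero]
    exact hL.inj (by rw [h1, map_zero])
  rcases Nat.le_total i (𝒯.dim X) with h1 | h1
  · exact key (𝒯.dim X - i) (𝒯.dim X - i) le_rfl (by omega)
  · exact key (i - 𝒯.dim X) 0 (Nat.zero_le _) (by omega)

/-- (4) implies (3). -/
theorem next_of_invariants (h : 𝒯.NoGaloisInvariants) : 𝒯.NextWeightMissing := by
  intro X i α x hx hN hF hα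
  have hev : (𝒯.F X i).HasEigenvalue α :=
    Module.End.hasEigenvalue_of_hasEigenvector
      ((Module.End.hasEigenvector_iff).2 ⟨Module.End.mem_eigenspace_iff.2 hF, hx⟩)
  obtain ⟨B, β, y, m, hm, hy, hNy, hFy, hαβ⟩ := 𝒯.honda X i (i + 1) α hev (by
    push_cast; exact hα)
  obtain ⟨Z, m₁, e₁, m₂, e₂, hm₁, he₁, hm₂, he₂, hd₁, hd₂, hφ⟩ := 𝒯.product X B
  obtain ⟨φ, hφ⟩ := hφ i (i + 1)
  set z := φ (x ⊗ₜ y) with hz
  have hz0 : z ≠ 0 := by
    rw [hz, ← map_zero φ]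
    intro h0
    exact tmul_ne hx hy (hφ.inj h0)
  have hNz : 𝒯.N Z (i + (i + 1)) z = 0 := by
    rw [hz, hφ.N, hN, hNy, smul_zero, smul_zero, TensorProduct.zero_tmul,
      TensorProduct.tmul_zero, add_zero, map_zero]
  have hFz : 𝒯.F Z (i + (i + 1)) z = (α ^ m₁ * β ^ m₂) • z := by
    rw [hz, hφ.F, pow_eigen hF, pow_eigen hFy, TensorProduct.smul_tmul_smul, map_smul]
  obtain ⟨Z', e, he, hd, hψ⟩ := 𝒯.extension Z (𝒯.deg B * m)
    (Nat.mul_pos (𝒯.deg_pos B) hm)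
  obtain ⟨ψ, hψ⟩ := hψ (i + (i + 1))
  have h1 : ψ z = 0 := by
    refine noInvariants_all h Z' (i + 1) (i + (i + 1)) (by omega) (ψ z) ?_ ?_
    · rw [← hψ.F, pow_eigen hFz, map_smul]
      congr 1
      have e1 : (α ^ m₁ * β ^ m₂) ^ (𝒯.deg B * m) =
          ((α ^ 𝒯.deg B * β ^ 𝒯.deg X) ^ m) ^ m₁ := by
        rw [mul_pow, mul_pow, mul_pow, ← pow_mul, ← pow_mul, ← pow_mul, ← pow_mul, ← pow_mul,
          ← pow_mul]
        have e2 : m₂ * (𝒯.deg B * m) = 𝒯.deg X * m * m₁ := by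
          rw [← mul_assoc, ← hd₂, hd₁]; ring
        rw [e2]
        ring
      rw [e1, hαβ, q_cast, hd, hd₁, ← pow_mul, ← pow_mul]
      congr 1
      ring
    · rw [← hψ.N, hNz, smul_zero, map_zero]
  exact hz0 (hψ.inj (by rw [h1, map_zero]))

/-- Powers of an elliptic curve with split multiplicative reduction. -/
lemma tate_pow (k : ℕ) (hk : 1 ≤ k) : ∃ (T : 𝒯.Obj) (y : 𝒯.H T k),
    𝒯.F T k y = ((𝒯.q T : E) ^ k) • y ∧ (𝒯.N T k ^ k) y ≠ 0 ∧ (𝒯.N T k ^ (k + 1)) y = 0 := by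
  obtain ⟨T₀, u, hu, hu1, hu2⟩ := 𝒯.tate
  induction k, hk using Nat.le_induction with
  | base =>
    refine ⟨T₀, u, ?_, ?_, ?_⟩
    · rw [pow_one, q_cast]; exact hu
    · rw [pow_one]; exact hu1
    · rw [pow_succ, pow_one, Module.End.mul_apply]; exact hu2
  | succ k hk ih =>
    obtain ⟨T, y, hy, hy1, hy2⟩ := ih
    obtain ⟨Z, m, e, m', e', hm, he, hm', he', hd, hd', hφ⟩ := 𝒯.product T T₀
    obtain ⟨φ, hφ⟩ := hφ k 1
    have he0 : (e : E) ≠ 0 := by exact_mod_cast he.ne'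
    have he0' : (e' : E) ≠ 0 := by exact_mod_cast he'.ne'
    set v := 𝒯.N T₀ 1 u with hv
    have hA : ∀ a : 𝒯.H T k, 𝒯.N Z (k + 1) (φ (a ⊗ₜ u)) =
        (e : E) • φ (𝒯.N T k a ⊗ₜ u) + (e' : E) • φ (a ⊗ₜ v) := by
      intro a
      rw [hφ.N, map_add, TensorProduct.tmul_smul, map_smul, ← TensorProduct.smul_tmul', map_smul]
    have hB : ∀ a : 𝒯.H T k, 𝒯.N Z (k + 1) (φ (a ⊗ₜ v)) =
        (e : E) • φ (𝒯.N T k a ⊗ₜ v) := by
      intro a
      rw [hφ.N, map_add, hu2, smul_zero, TensorProduct.tmul_zero, map_zero, add_zero,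
        ← TensorProduct.smul_tmul', map_smul]
    have hpow : ∀ (n : ℕ) (a : 𝒯.H T k), (𝒯.N Z (k + 1) ^ (n + 1)) (φ (a ⊗ₜ u)) =
        ((e : E) ^ (n + 1)) • φ ((𝒯.N T k ^ (n + 1)) a ⊗ₜ u) +
          (((n + 1 : ℕ) : E) * ((e : E) ^ n * e')) • φ ((𝒯.N T k ^ n) a ⊗ₜ v) := by
      intro n
      induction n with
      | zero =>
        intro a
        rw [zero_add, pow_one, pow_one, pow_one, hA, pow_zero, pow_zero, Module.End.one_apply,
          Nat.cast_one, one_mul, one_mul]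
      | succ n ih =>
        intro a
        rw [pow_succ', Module.End.mul_apply, ih, map_add, map_smul, map_smul, hA, hB,
          ← Module.End.mul_apply (𝒯.N T k), ← pow_succ', ← Module.End.mul_apply (𝒯.N T k),
          ← pow_succ']
        push_cast
        module
    refine ⟨Z, φ (y ⊗ₜ u), ?_, ?_, ?_⟩
    · rw [hφ.F, pow_eigen hy, pow_eigen hu, TensorProduct.smul_tmul_smul, map_smul]
      congr 1
      rw [← q_cast, pow_succ, q_mul hd]
      push_cast
      have h1 : ((𝒯.q T : E) ^ m) = (𝒯.q T₀ : E) ^ m' := by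
        have := q_mul hd'
        rw [q_mul hd] at this
        exact_mod_cast congrArg (Nat.cast (R := E)) this
      rw [← h1, ← pow_mul, ← pow_mul, mul_comm k m]
    · rw [hpow k y, hy2, TensorProduct.zero_tmul, map_zero, smul_zero, zero_add]
      refine smul_ne_zero (mul_ne_zero (by exact_mod_cast Nat.succ_ne_zero k)
        (mul_ne_zero (pow_ne_zero _ he0) he0')) ?_
      rw [← map_zero φ]
      intro h0
      exact tmul_ne hy1 hu1 (hφ.inj h0)
    · rw [hpow (k + 1) y, pow_succ' (𝒯.N T k), Module.End.mul_apply, hy2, map_zero,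
        TensorProduct.zero_tmul, TensorProduct.zero_tmul, map_zero, smul_zero, smul_zero, add_zero]

variable [IsAlgClosed E]

/-- **The iterates of `N` are injective.** -/
theorem inj_of_next (h : 𝒯.NextWeightMissing) (X : 𝒯.Obj) (i r : ℕ)
    (hr : 1 ≤ r) {x : 𝒯.H X i} (hx : x ∈ sp (𝒯.F X i) (Sw E (𝒯.q X) (i + r)))
    (hNx : (𝒯.N X i ^ r) x = 0) : x = 0 := by
  classical
  by_contra hx0
  obtain ⟨x₀, ⟨hx₀, hNx₀⟩, hx₀0, α, hFα⟩ := exists_eigen (𝒯.F X i)
    (sp (𝒯.F X i) (Sw E (𝒯.q X) (i + r)) ⊓ LinearMap.ker (𝒯.N X i ^ r))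
    (by
      rintro y ⟨hy, hy'⟩
      refine ⟨F_mem_sp hy, ?_⟩
      rw [SetLike.mem_coe, LinearMap.mem_ker] at hy' ⊢
      rw [N_pow_F (NF X i), hy', map_zero, smul_zero])
    ⟨x, ⟨hx, hNx⟩, hx0⟩
  rw [SetLike.mem_coe, LinearMap.mem_ker] at hNx₀
  have hα' : α ∈ Sw E (𝒯.q X) (i + r) := mem_of_eigen hFα hx₀0 hx₀
  have hα : IsWeilNumber (𝒯.q X) (i + r) α := hα'
  have hex : ∃ n, (𝒯.N X i ^ n) x₀ = 0 := ⟨r, hNx₀⟩
  have hn0 : Nat.find hex ≠ 0 := by
    intro h0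
    have h1 := Nat.find_spec hex
    rw [h0, pow_zero, Module.End.one_apply] at h1
    exact hx₀0 h1
  obtain ⟨s, hs⟩ : ∃ s, Nat.find hex = s + 1 := ⟨Nat.find hex - 1, by omega⟩
  have hs1 : (𝒯.N X i ^ (s + 1)) x₀ = 0 := by rw [← hs]; exact Nat.find_spec hex
  have hs0 : (𝒯.N X i ^ s) x₀ ≠ 0 := Nat.find_min hex (by omega)
  have hsr : s + 1 ≤ r := by rw [← hs]; exact Nat.find_min' hex hNx₀
  rcases Nat.eq_or_lt_of_le hr with rfl | hr2
  · obtain rfl : s = 0 := by omega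
    rw [zero_add, pow_one] at hs1
    refine h X i α x₀ hx₀0 hs1 hFα ?_
    exact_mod_cast hα
  · obtain ⟨k, hk⟩ : ∃ k, k = r - 1 := ⟨_, rfl⟩
    obtain ⟨T, y, hy, hy1, hy2⟩ := tate_pow (𝒯 := 𝒯) k (by omega)
    obtain ⟨Z, m, e, m', e', hm, he, hm', he', hd, hd', hφ⟩ := 𝒯.product X T
    obtain ⟨φ, hφ⟩ := hφ i k
    have he0 : (e : E) ≠ 0 := by exact_mod_cast he.ne'
    have he0' : (e' : E) ≠ 0 := by exact_mod_cast he'.ne'
    have hq : ((𝒯.q Z : ℕ) : E) = (𝒯.q X : E) ^ m := by rw [q_mul hd]; push_cast; rfl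
    have hq' : ((𝒯.q Z : ℕ) : E) = (𝒯.q T : E) ^ m' := by rw [q_mul hd']; push_cast; rfl
    obtain ⟨ξ, hξ, hNξ, hFξ⟩ := tensor_kernel (F₁ := 𝒯.F X i ^ m)
      (N₁ := (e : E) • 𝒯.N X i) (F₂ := 𝒯.F T k ^ m') (N₂ := (e' : E) • 𝒯.N T k)
      (F₃ := 𝒯.F Z (i + k)) (N₃ := 𝒯.N Z (i + k)) (Q := (𝒯.q Z : E)) (q_ne Z)
      (by
        intro x
        rw [LinearMap.smul_apply, LinearMap.smul_apply, NF_pow (NF X i), hq, map_smul,
          smul_comm])
      (by
        intro x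
        rw [LinearMap.smul_apply, LinearMap.smul_apply, NF_pow (NF T k), hq', map_smul,
          smul_comm])
      hφ.inj (fun x y => hφ.F x y) (fun x y => hφ.N x y) (x := x₀) (y := y) (α := α ^ m)
      (s := s) (k := k) (by omega) (pow_eigen hFα m)
      (by rw [smul_pow_apply]; exact smul_ne_zero (pow_ne_zero _ he0) hs0)
      (by rw [smul_pow_apply, hs1, smul_zero])
      (by rw [pow_eigen hy, hq', ← pow_mul, ← pow_mul, mul_comm])
      (by rw [smul_pow_apply]; exact smul_ne_zero (pow_ne_zero _ he0') hy1)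
      (by rw [smul_pow_apply, hy2, smul_zero])
    refine h Z (i + k) (α ^ m) ξ hξ hNξ hFξ ?_
    have h1 := hα.pow m
    rw [← q_mul hd] at h1
    have h2 : (((i + k : ℕ) : ℤ) + 1) = i + r := by
      push_cast
      omega
    rw [h2]
    exact h1

/-- The iterates of `N` are injective on the parts of large weight. -/
def IterInj (𝒯 : RigidTheory.{u, v} E) (X : 𝒯.Obj) : Prop := ∀ i r : ℕ, 1 ≤ r →
  ∀ x ∈ sp (𝒯.F X i) (Sw E (𝒯.q X) (i + r)), (𝒯.N X i ^ r) x = 0 → x = 0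

/-- Injectivity from the weights for the product with itself. -/
theorem inj_of_square (hE : Nonempty (E →+* ℂ)) (X : 𝒯.Obj) (h : 𝒯.SquareWeightsAtMost X) :
    IterInj 𝒯 X := by
  classical
  intro i r hr x hx hNx
  by_contra hx0
  obtain ⟨x₀, ⟨hx₀, hNx₀⟩, hx₀0, α, hFα⟩ := exists_eigen (𝒯.F X i)
    (sp (𝒯.F X i) (Sw E (𝒯.q X) (i + r)) ⊓ LinearMap.ker (𝒯.N X i ^ r))
    (by
      rintro y ⟨hy, hy'⟩
      refine ⟨F_mem_sp hy, ?_⟩
      rw [SetLike.mem_coe, LinearMap.mem_ker] at hy' ⊢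
      rw [N_pow_F (NF X i), hy', map_zero, smul_zero])
    ⟨x, ⟨hx, hNx⟩, hx0⟩
  rw [SetLike.mem_coe, LinearMap.mem_ker] at hNx₀
  have hα' : α ∈ Sw E (𝒯.q X) (i + r) := mem_of_eigen hFα hx₀0 hx₀
  have hα : IsWeilNumber (𝒯.q X) (i + r) α := hα'
  have hqX := one_lt_q X
  have hα0 : α ≠ 0 := hα.ne_zero hE hqX
  have hex : ∃ n, (𝒯.N X i ^ n) x₀ = 0 := ⟨r, hNx₀⟩
  have hn0 : Nat.find hex ≠ 0 := by
    intro h0
    have h1 := Nat.find_spec hex
    rw [h0, pow_zero, Module.End.one_apply] at h1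
    exact hx₀0 h1
  obtain ⟨s, hs⟩ : ∃ s, Nat.find hex = s + 1 := ⟨Nat.find hex - 1, by omega⟩
  have hs1 : (𝒯.N X i ^ (s + 1)) x₀ = 0 := by rw [← hs]; exact Nat.find_spec hex
  have hs0 : (𝒯.N X i ^ s) x₀ ≠ 0 := Nat.find_min hex (by omega)
  have hsr : s + 1 ≤ r := by rw [← hs]; exact Nat.find_min' hex hNx₀
  obtain ⟨φ, hφ⟩ := 𝒯.kunneth X i
  have hqs : 𝒯.q (𝒯.square X) = 𝒯.q X := by rw [q, q, 𝒯.deg_square]
  set c : E := (𝒯.q X : E) ^ s * α⁻¹ with hc
  have hc0 : c ≠ 0 := mul_ne_zero (pow_ne_zero _ (q_ne X)) (inv_ne_zero hα0)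
  have hφF : ∀ x y, 𝒯.F (𝒯.square X) (i + i) (φ (x ⊗ₜ y)) =
      φ (𝒯.F X i x ⊗ₜ 𝒯.F X i y) := by
    intro x y
    have h1 := hφ.F x y
    rwa [pow_one] at h1
  have hφN : ∀ x y, 𝒯.N (𝒯.square X) (i + i) (φ (x ⊗ₜ y)) =
      φ (𝒯.N X i x ⊗ₜ y + x ⊗ₜ 𝒯.N X i y) := by
    intro x y
    have h1 := hφ.N x y
    rwa [Nat.cast_one, one_smul, one_smul] at h1
  obtain ⟨ξ, hξ, hNξ, hFξ⟩ := tensor_kernel (F₁ := 𝒯.F X i)
    (N₁ := 𝒯.N X i) (F₂ := c • 𝒯.F X i) (N₂ := 𝒯.N X i)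
    (F₃ := c • 𝒯.F (𝒯.square X) (i + i)) (N₃ := 𝒯.N (𝒯.square X) (i + i)) (Q := (𝒯.q X : E))
    (q_ne X) (NF X i)
    (by
      intro x
      rw [LinearMap.smul_apply, LinearMap.smul_apply, map_smul, NF X i, smul_comm])
    hφ.inj
    (by
      intro x y
      rw [LinearMap.smul_apply, LinearMap.smul_apply, hφF, TensorProduct.tmul_smul, map_smul])
    hφN (x := x₀) (y := x₀) (α := α) (s := s) (k := s) (by omega) hFα hs0 hs1
    (by
      rw [LinearMap.smul_apply, hFα, smul_smul, hc, mul_assoc, inv_mul_cancel₀ hα0, mul_one])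
    hs0 hs1
  have hFξ' : 𝒯.F (𝒯.square X) (i + i) ξ = (c⁻¹ * α) • ξ := by
    rw [LinearMap.smul_apply] at hFξ
    rw [mul_smul, ← hFξ, smul_smul, inv_mul_cancel₀ hc0, one_smul]
  have hw : IsWeilNumber (𝒯.q X) ((-(2 * (s : ℤ)) + (i + r)) + (i + r)) (c⁻¹ * α) := by
    refine IsWeilNumber.mul hqX ?_ hα
    rw [hc, mul_inv, inv_inv]
    exact IsWeilNumber.mul hqX (isWeilNumber_q (𝒯.q X) s).inv hα
  have h1 := h i _ _ ξ hξ hNξ hFξ' hw
  omega

/-- **The iterates of `N` are surjective.** -/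
theorem surj_of_inj (hE : Nonempty (E →+* ℂ)) (X : 𝒯.Obj) (h : IterInj 𝒯 X) (i r : ℕ)
    {y : 𝒯.H X i} (hy : y ∈ sp (𝒯.F X i) (Sw E (𝒯.q X) (i - r))) :
    ∃ x ∈ sp (𝒯.F X i) (Sw E (𝒯.q X) (i + r)), (𝒯.N X i ^ r) x = y := by
  classical
  rcases Nat.eq_zero_or_pos r with rfl | hr
  · refine ⟨y, ?_, by simp⟩
    simpa using hy
  rcases Nat.lt_or_ge (2 * 𝒯.dim X) i with hid | hid
  · refine ⟨0, Submodule.zero_mem _, ?_⟩
    rw [map_zero, 𝒯.vanishing X i hid y]
  obtain ⟨j, hj⟩ : ∃ j, j = 2 * 𝒯.dim X - i := ⟨_, rfl⟩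
  have hij : i + j = 2 * 𝒯.dim X := by omega
  obtain ⟨b, hb⟩ := 𝒯.duality X i j hij
  obtain ⟨b', hb'⟩ := 𝒯.duality X j i (by omega)
  rw [← q_cast] at hb hb'
  have hqX := one_lt_q X
  have hpow : ∀ (i : ℕ) (a : ℕ), ∀ c : ℤ, ∀ x ∈ sp (𝒯.F X i) (Sw E (𝒯.q X) c),
      (𝒯.N X i ^ a) x ∈ sp (𝒯.F X i) (Sw E (𝒯.q X) (c - 2 * a)) := by
    intro i a
    induction a with
    | zero => intro c x hx; simpa using hx
    | succ a ih =>
      intro c x hx
      rw [pow_succ', Module.End.mul_apply]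
      refine N_mem_sp (q_ne X) (NF X i) ?_ (ih c x hx)
      intro α hα
      have h1 := (isWeilNumber_q (E := E) (𝒯.q X) 1).inv
      rw [pow_one] at h1
      have h2 := IsWeilNumber.mul hqX hα h1
      rw [div_eq_mul_inv]
      have h3 : (c - 2 * a + -(2 * ((1 : ℕ) : ℤ))) = c - 2 * ((a + 1 : ℕ) : ℤ) := by
        push_cast; ring
      rw [h3] at h2
      exact h2
  have hmap : ∀ i : ℕ, ∀ x ∈ sp (𝒯.F X i) (Sw E (𝒯.q X) (i + r)),
      (𝒯.N X i ^ r) x ∈ sp (𝒯.F X i) (Sw E (𝒯.q X) (i - r)) := by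
    intro i x hx
    have h1 := hpow i r _ x hx
    have h2 : ((i : ℤ) + r - 2 * r) = i - r := by ring
    rwa [h2] at h1
  have hinj : ∀ i : ℕ, Function.Injective ((𝒯.N X i ^ r).restrict (hmap i)) := by
    intro i
    rw [← LinearMap.ker_eq_bot, LinearMap.ker_eq_bot']
    rintro ⟨x, hx⟩ h0
    apply Subtype.ext
    exact h i r hr x hx (congrArg Subtype.val h0)
  have hij' : (i : ℤ) + j = 2 * 𝒯.dim X := by exact_mod_cast hij
  have e1 := LinearMap.finrank_le_finrank_of_injective (hinj i)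
  have e2 := LinearMap.finrank_le_finrank_of_injective (hinj j)
  have e3 := finrank_le hE hqX hb' (𝒯.weights X i) (j - r) (i + r) (by omega)
  have e4 := finrank_le hE hqX hb (𝒯.weights X j) (i - r) (j + r) (by omega)
  have hfin : Module.finrank E (sp (𝒯.F X i) (Sw E (𝒯.q X) (i + r))) =
      Module.finrank E (sp (𝒯.F X i) (Sw E (𝒯.q X) (i - r))) := by
    omega
  obtain ⟨x, hx⟩ := (LinearMap.injective_iff_surjective_of_finrank_eq_finrank hfin).1 (hinj i)
    ⟨y, hy⟩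
  exact ⟨x, x.2, congrArg Subtype.val hx⟩

/-- The monodromy-weight conjecture from the injectivity of the iterates. -/
theorem mw_of_inj (hE : Nonempty (E →+* ℂ)) (X : 𝒯.Obj) (h : IterInj 𝒯 X) : 𝒯.QOneFor X := by
  classical
  intro i
  have hqX := one_lt_q X
  set F := 𝒯.F X i with hF
  set N := 𝒯.N X i with hN
  set q := 𝒯.q X with hq
  have hle : ∀ c : ℤ, Sle E q c ⊆ Sle E q (c - 1) ∪ Sw E q c := by
    rintro c α ⟨w, hw, hα⟩
    rcases lt_or_eq_of_le hw with h1 | h1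
    · left; exact ⟨w, by omega, hα⟩
    · right; rw [← h1]; exact hα
  have hdisj : ∀ c c' : ℤ, c < c' → Disjoint (Sle E q c) (Sw E q c') := by
    intro c c' hcc
    rw [Set.disjoint_left]
    rintro α ⟨w, hw, hα⟩ hα'
    have := hα.unique hE hqX hα'
    omega
  have hmono : ∀ c c' : ℤ, c ≤ c' → Sle E q c ⊆ Sle E q c' := by
    rintro c c' hcc α ⟨w, hw, hα⟩
    exact ⟨w, hw.trans hcc, hα⟩
  have hqq : IsWeilNumber (E := E) q (-2) (q : E)⁻¹ := by
    have h1 := (isWeilNumber_q (E := E) q 1).inv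
    rw [pow_one] at h1
    exact h1
  have hN1 : ∀ c : ℤ, ∀ x ∈ sp F (Sle E q c), N x ∈ sp F (Sle E q (c - 2)) := by
    intro c x hx
    refine N_mem_sp (q_ne X) (NF X i) ?_ hx
    rintro α ⟨w, hw, hα⟩
    rw [div_eq_mul_inv]
    exact ⟨w + -2, by omega, IsWeilNumber.mul hqX hα hqq⟩
  have hN2 : ∀ a : ℕ, ∀ c : ℤ, ∀ x ∈ sp F (Sle E q c),
      (N ^ a) x ∈ sp F (Sle E q (c - 2 * a)) := by
    intro a
    induction a with
    | zero => intro c x hx; simpa using hx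
    | succ a ih =>
      intro c x hx
      rw [pow_succ', Module.End.mul_apply]
      have h1 := hN1 _ _ (ih c x hx)
      have h2 : c - 2 * (a : ℤ) - 2 = c - 2 * ((a + 1 : ℕ) : ℤ) := by push_cast; ring
      rwa [h2] at h1
  have hN3 : ∀ a : ℕ, ∀ c : ℤ, ∀ x ∈ sp F (Sw E q c),
      (N ^ a) x ∈ sp F (Sw E q (c - 2 * a)) := by
    intro a
    induction a with
    | zero => intro c x hx; simpa using hx
    | succ a ih =>
      intro c x hx
      rw [pow_succ', Module.End.mul_apply]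
      refine N_mem_sp (q_ne X) (NF X i) ?_ (ih c x hx)
      intro α hα
      rw [div_eq_mul_inv]
      have h1 := IsWeilNumber.mul hqX hα hqq
      have h2 : c - 2 * (a : ℤ) + -2 = c - 2 * ((a + 1 : ℕ) : ℤ) := by push_cast; ring
      rwa [h2] at h1
  -- the weights
  have hfinite : {α | F.HasEigenvalue α}.Finite := by
    have h1 : {α | F.HasEigenvalue α} ⊆ {α | α ∈ (minpoly E F).roots} := by
      intro α hα
      have h2 : minpoly E F ≠ 0 := minpoly.ne_zero (Algebra.IsIntegral.isIntegral F)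
      exact (Polynomial.mem_roots h2).2 (Module.End.isRoot_of_hasEigenvalue hα)
    exact (Multiset.finite_toSet _).subset h1
  choose! wt hwt using 𝒯.weights X i
  have hfw : (wt '' {α | F.HasEigenvalue α}).Finite := hfinite.image _
  obtain ⟨B, hB⟩ := hfw.bddAbove
  obtain ⟨A, hA⟩ := hfw.bddBelow
  have hev := sp_eigenvalues F
  refine ⟨fun a => sp F (Sle E q (i + a)), ⟨?_, ?_, ?_, ?_, ?_, ?_⟩, ?_, ?_⟩
  · intro a a' haa
    exact sp_mono (hmono _ _ (by omega))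
  · refine ⟨A - 1 - i, ?_⟩
    rw [Submodule.eq_bot_iff]
    intro x hx
    refine sp_disjoint (S := Sle E q (i + (A - 1 - i))) (T := {α | F.HasEigenvalue α}) ?_ hx
      (hev x)
    rw [Set.disjoint_left]
    rintro α ⟨w, hw, hα⟩ hα'
    have h1 := hα.unique hE hqX (hwt α hα')
    have h2 := hA ⟨α, hα', rfl⟩
    omega
  · refine ⟨B - i, ?_⟩
    rw [eq_top_iff]
    intro x _
    refine sp_mono ?_ (hev x)
    intro α hα
    have h2 := hB ⟨α, hα, rfl⟩
    exact ⟨wt α, by omega, hwt α hα⟩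
  · intro a x hx
    have h1 := hN1 _ x hx
    have h2 : (i : ℤ) + a - 2 = i + (a - 2) := by ring
    rwa [h2] at h1
  · intro a x hx hNx
    obtain ⟨y, hy, z, hz, rfl⟩ := sp_union (sp_mono (hle _) hx)
    have hz' : (N ^ a) z ∈ sp F (Sle E q (i + (-a - 1))) := by
      have h1 := hN2 a _ y hy
      have h2 : (i : ℤ) + a - 1 - 2 * a = i + (-a - 1) := by ring
      rw [h2] at h1
      have h3 := Submodule.sub_mem _ hNx h1
      rwa [map_add, add_sub_cancel_left] at h3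
    have hz'' : (N ^ a) z ∈ sp F (Sw E q (i - a)) := by
      have h1 := hN3 a _ z hz
      have h2 : (i : ℤ) + a - 2 * a = i - a := by ring
      rwa [h2] at h1
    have h0 : (N ^ a) z = 0 := sp_disjoint (hdisj _ _ (by omega)) hz' hz''
    have hz0 : z = 0 := by
      rcases Nat.eq_zero_or_pos a with rfl | ha
      · simpa using h0
      · exact h i a ha z hz h0
    rw [hz0, add_zero]
    have h2 : (i : ℤ) + a - 1 = i + (a - 1) := by ring
    rwa [h2] at hy
  · intro a y hy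
    obtain ⟨y', hy', z, hz, rfl⟩ := sp_union (sp_mono (hle _) hy)
    have h2 : (i : ℤ) + -a = i - a := by ring
    rw [h2] at hz
    obtain ⟨x, hx, hxz⟩ := surj_of_inj hE X h i a hz
    refine ⟨x, sp_mono ?_ hx, ?_⟩
    · intro α hα
      exact ⟨_, le_rfl, hα⟩
    · rw [← hN] at hxz
      rw [hxz, add_sub_cancel_right]
      have h3 : (i : ℤ) + -a - 1 = i + (-a - 1) := by ring
      rwa [h3] at hy'
  · intro a x hx
    exact F_mem_sp hx
  · intro a α x hx hx' hFx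
    obtain ⟨y, hy, z, hz, rfl⟩ := sp_union (sp_mono (hle _) hx)
    have e1 : (i : ℤ) + a - 1 = i + (a - 1) := by ring
    rw [e1] at hy
    have h1 : F z - α • z ∈ sp F (Sle E q (i + (a - 1))) := by
      have h2 : F z - α • z = (F (y + z) - α • (y + z)) - (F y - α • y) := by
        rw [map_add, smul_add]; abel
      rw [h2]
      exact Submodule.sub_mem _ hFx
        (Submodule.sub_mem _ (F_mem_sp hy) (Submodule.smul_mem _ _ hy))
    have h2 : F z - α • z ∈ sp F (Sw E q (i + a)) :=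
      Submodule.sub_mem _ (F_mem_sp hz) (Submodule.smul_mem _ _ hz)
    have h3 : F z - α • z = 0 := sp_disjoint (hdisj _ _ (by omega)) h1 h2
    rw [sub_eq_zero] at h3
    have hz0 : z ≠ 0 := by
      rintro rfl
      rw [add_zero] at hx'
      exact hx' hy
    have h4 : α ∈ Sw E q (i + a) := mem_of_eigen h3 hz0 hz
    exact h4

/-- The local invariant cycle theorem bounds the weights. -/
theorem weights_of_local (hE : Nonempty (E →+* ℂ)) (X : 𝒯.Obj) (i : ℕ)
    (h : 𝒯.LocalInvariantCycles X i) (α : E) (w : ℤ) (x : 𝒯.H X i) (hx0 : x ≠ 0)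
    (hN : 𝒯.N X i x = 0) (hF : 𝒯.F X i x = α • x) (hα : IsWeilNumber (𝒯.q X) w α) :
    w ≤ i := by
  obtain ⟨y, rfl⟩ := h x hN
  have h1 : 𝒯.spec X i y ∈ sp (𝒯.F X i) {α | (𝒯.Fs X i).HasEigenvalue α} :=
    map_mem_sp (𝒯.spec_F X i) (sp_eigenvalues (𝒯.Fs X i) y)
  have h2 : (𝒯.Fs X i).HasEigenvalue α := mem_of_eigen hF hx0 h1
  obtain ⟨w', hw', hα'⟩ := 𝒯.weightsHs X i α h2
  have h3 := hα.unique hE (one_lt_q X) hα'
  omega

/-- **The main theorem.** -/
theorem main (𝒯 : RigidTheory.{u, v} E) (hE : Nonempty (E →+* ℂ)) :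
    [𝒯.MonodromyWeight, 𝒯.WeightsAtMost, 𝒯.NextWeightMissing, 𝒯.NoGaloisInvariants,
      𝒯.NoGaloisCohomology].TFAE ∧
    (∀ X, 𝒯.SquareWeightsAtMost X → 𝒯.QOneFor X) ∧
    (∀ X, (∀ i, 𝒯.LocalInvariantCycles (𝒯.square X) (i + i)) → 𝒯.QOneFor X) := by
  have hsq : ∀ X, 𝒯.SquareWeightsAtMost X → 𝒯.QOneFor X := fun X h =>
    mw_of_inj hE X (inj_of_square hE X h)
  refine ⟨?_, hsq, fun X h => hsq X fun i α w x hx0 hN hF hα => ?_⟩
  · tfae_have 1 → 2 := weights_of_mw hE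
    tfae_have 2 → 3 := next_of_weights
    tfae_have 3 → 4 := invariants_of_next
    tfae_have 4 → 3 := next_of_invariants
    tfae_have 4 ↔ 5 := invariants_iff
    tfae_have 3 → 1 := fun h X => mw_of_inj hE X fun i r hr x hx hN =>
      inj_of_next h X i r hr hx hN
    tfae_finish
  · have hq : 𝒯.q (𝒯.square X) = 𝒯.q X := by rw [q, q, 𝒯.deg_square]
    have h1 := weights_of_local hE (𝒯.square X) (i + i) (h i) α w x hx0 hN hF (by rwa [hq])
    push_cast at h1
    omega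

end RigidTheory

end Pool.Agent.TH121.RW
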