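import Pool.Agent.TH121.RW.LogDefs
import Pool.Agent.TH121.RW.Main

/-!
# The main theorem in this case
-/

open Module TensorProduct

universe u v

namespace Pool.Agent.TH121.RW

open Pool.Agent.TH122.Wm

variable {E : Type u} [Field E] [CharZero E]

/-- the formal properties are the same -/
def LogPointTheory.toRigid (𝒯 : LogPointTheory.{u, v} E) : RigidTheory.{u, v} E where
  Obj := 𝒯.Obj
  dim := 𝒯.dim
  p := 𝒯.p
  one_lt := 𝒯.one_lt
  deg := 𝒯.deg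
  deg_pos := 𝒯.deg_pos
  H := 𝒯.H
  finite := 𝒯.finite
  F := 𝒯.F
  N := 𝒯.N
  N_F := 𝒯.N_F
  weights := 𝒯.weights
  vanishing := 𝒯.vanishing
  duality := 𝒯.duality
  extension := 𝒯.extension
  product := 𝒯.product
  square := 𝒯.square
  deg_square := 𝒯.deg_square
  kunneth := 𝒯.kunneth
  projectiveLines := 𝒯.projectiveLines
  tate := 𝒯.tate
  honda := 𝒯.honda
  Hs := 𝒯.Hs
  finiteHs := 𝒯.finiteHs
  Fs := 𝒯.Fs
  weightsHs := 𝒯.weightsHs
  spec := 𝒯.spec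
  spec_F := 𝒯.spec_F

theorem LogPointTheory.main [IsAlgClosed E] (𝒯 : LogPointTheory.{u, v} E) (hE : Nonempty (E →+* ℂ)) :
    [𝒯.MonodromyWeight, 𝒯.WeightsAtMost, 𝒯.NextWeightMissing, 𝒯.NoGaloisInvariants,
      𝒯.NoGaloisCohomology].TFAE ∧
    (∀ X, 𝒯.SquareWeightsAtMost X → 𝒯.QOneFor X) ∧
    (∀ X, (∀ i, 𝒯.LocalInvariantCycles (𝒯.square X) (i + i)) → 𝒯.QOneFor X) :=
  RigidTheory.main 𝒯.toRigid hE

end Pool.Agent.TH121.RW
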